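import Pool.Agent.Lib.MP_f8058f_co.Defs

set_option autoImplicit false

namespace Pool.Agent.Lib.MP_f8058f_co

open SimpleGraph

variable {V : Type} {H : SimpleGraph V}

theorem minimal_walk (S : Set V) {a b : V} (p : H.Walk a b) (hp : ∀ x ∈ p.support, x ∈ S)
    (hmin : ∀ r : H.Walk a b, (∀ x ∈ r.support, x ∈ S) → p.length ≤ r.length) :
    p.IsPath ∧ p.IsChordless := by
  classical
  induction p with
  | nil =>
    refine ⟨Walk.IsPath.nil, ?_⟩
    rw [Walk.isChordless_iff_forall_mem_edges]
    intro u v hu hv h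
    simp only [Walk.support_nil, List.mem_singleton] at hu hv
    subst hu hv
    exact absurd h (H.loopless.irrefl _)
  | @cons a a' b h p' ih =>
    have ha : a ∈ S := hp a (by simp)
    have hp' : ∀ x ∈ p'.support, x ∈ S := fun x hx => hp x (by simp [hx])
    obtain ⟨h1, h2⟩ := ih hp' (fun r hr => by
      have := hmin (Walk.cons h r) (by
        intro x hx
        simp only [Walk.support_cons, List.mem_cons] at hx
        rcases hx with rfl | hx
        · exact ha
        · exact hr x hx)
      simpa using this)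
    have hna : a ∉ p'.support := by
      intro hm
      have := hmin (p'.dropUntil a hm)
        (fun x hx => hp' x (Walk.support_dropUntil_subset_support _ _ hx))
      have h3 := p'.length_dropUntil_le_length hm
      simp only [Walk.length_cons] at this
      omega
    have key : ∀ y ∈ p'.support, H.Adj a y → y = a' := by
      intro y hy hay
      by_contra hne
      have := hmin (Walk.cons hay (p'.dropUntil y hy)) (by
        intro x hx
        simp only [Walk.support_cons, List.mem_cons] at hx
        rcases hx with rfl | hx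
        · exact ha
        · exact hp' x (Walk.support_dropUntil_subset_support _ _ hx))
      have h3 := Walk.length_dropUntil_lt_length hy hne
      simp only [Walk.length_cons] at this
      omega
    refine ⟨(Walk.cons_isPath_iff _ _).2 ⟨h1, hna⟩, ?_⟩
    rw [Walk.isChordless_iff_forall_mem_edges]
    intro u v hu hv huv
    simp only [Walk.support_cons, List.mem_cons] at hu hv
    simp only [Walk.edges_cons, List.mem_cons]
    rcases hu with rfl | hu
    · rcases hv with rfl | hv
      · exact absurd huv (H.loopless.irrefl _)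
      · left; rw [key v hv huv]
    · rcases hv with rfl | hv
      · left; rw [key u hu huv.symm]; exact Sym2.eq_swap
      · right; exact h2.mem_edges hu hv huv

theorem exists_chordless {a b : V} (p : H.Walk a b) :
    ∃ q : H.Walk a b, q.IsPath ∧ q.IsChordless ∧ ∀ x ∈ q.support, x ∈ p.support := by
  classical
  have hex : ∃ n, ∃ q : H.Walk a b, (∀ x ∈ q.support, x ∈ p.support) ∧ q.length = n :=
    ⟨_, p, fun _ h => h, rfl⟩
  obtain ⟨q, hq, hl⟩ := Nat.find_spec hex
  have := minimal_walk {x | x ∈ p.support} q hq (fun r hr => by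
    rw [hl]; exact Nat.find_min' hex ⟨r, hr, rfl⟩)
  exact ⟨q, this.1, this.2, hq⟩

theorem two_le_length {a b : V} (hne : a ≠ b) (hna : ¬ H.Adj a b) (p : H.Walk a b) :
    2 ≤ p.length := by
  cases p with
  | nil => exact absurd rfl hne
  | cons h p' =>
    cases p' with
    | nil => exact absurd h hna
    | cons h' p'' => simp

theorem no_two_paths (hH : Chordal H) {a b : V} (hne : a ≠ b) (hna : ¬ H.Adj a b)
    (p : H.Walk a b) (q : H.Walk b a)
    (hpq : ∀ x ∈ p.support, ∀ y ∈ q.support, x ≠ a → x ≠ b → y ≠ a → y ≠ b →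
      x ≠ y ∧ ¬ H.Adj x y) : False := by
  obtain ⟨P, hP, hPc, hPs⟩ := exists_chordless p
  obtain ⟨Q, hQ, hQc, hQs⟩ := exists_chordless q
  have lP := two_le_length hne hna P
  have lQ := two_le_length hne.symm (fun h => hna h.symm) Q
  have hcyc : (P.append Q).IsCycle := by
    refine hP.isCycle_append hQ ?_ (Or.inl (by omega))
    intro z hz1 hz2
    have n1 := hP.support_nodup
    have n2 := hQ.support_nodup
    rw [← P.cons_tail_support, List.nodup_cons] at n1
    rw [← Q.cons_tail_support, List.nodup_cons] at n2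
    have za : z ≠ a := fun h => n1.1 (h ▸ hz1)
    have zb : z ≠ b := fun h => n2.1 (h ▸ hz2)
    exact (hpq z (hPs z (List.mem_of_mem_tail hz1)) z (hQs z (List.mem_of_mem_tail hz2))
      za zb za zb).1 rfl
  obtain ⟨e, he⟩ := hH a _ hcyc (by rw [Walk.length_append]; omega)
  induction e using Sym2.ind with
  | _ x y =>
    rw [Walk.isChord_sym2Mk, Walk.edges_append, List.mem_append, Walk.mem_support_append_iff,
      Walk.mem_support_append_iff] at he
    obtain ⟨hxy, hne', hx, hy⟩ := he
    have aux : ∀ x y, H.Adj x y → x ∈ P.support → y ∈ Q.support → x ∉ Q.support →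
        y ∉ P.support → False := by
      intro x y hxy hx hy hx' hy'
      refine (hpq x (hPs x hx) y (hQs y hy) ?_ ?_ ?_ ?_).2 hxy
      · rintro rfl; exact hx' Q.end_mem_support
      · rintro rfl; exact hx' Q.start_mem_support
      · rintro rfl; exact hy' P.start_mem_support
      · rintro rfl; exact hy' P.end_mem_support
    by_cases hxP : x ∈ P.support <;> by_cases hyP : y ∈ P.support
    · exact hne' (Or.inl (hPc.mem_edges hxP hyP hxy))
    · have hyQ := hy.resolve_left hyP
      by_cases hxQ : x ∈ Q.support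
      · exact hne' (Or.inr (hQc.mem_edges hxQ hyQ hxy))
      · exact aux x y hxy hxP hyQ hxQ hyP
    · have hxQ := hx.resolve_left hxP
      by_cases hyQ : y ∈ Q.support
      · exact hne' (Or.inr (hQc.mem_edges hxQ hyQ hxy))
      · exact aux y x hxy.symm hyP hxQ hyQ hxP
    · exact hne' (Or.inr (hQc.mem_edges (hx.resolve_left hxP) (hy.resolve_left hyP) hxy))

/-- Dirac's lemma inside a vertex subset `W`. -/
theorem dirac_aux (hH : Chordal H) (n : ℕ) : ∀ (W D : Finset V) (w : V), W.card ≤ n →
    D.Nonempty → D ⊆ W → (∀ a ∈ D, ∀ b ∈ D, a ≠ b → H.Adj a b) → w ∈ W → w ∉ D →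
    (∀ d ∈ D, ¬ H.Adj w d) →
    ∃ x ∈ W, x ∉ D ∧ (∀ d ∈ D, ¬ H.Adj x d) ∧
      ∀ y ∈ W, ∀ z ∈ W, H.Adj x y → H.Adj x z → y ≠ z → H.Adj y z := by
  classical
  induction n with
  | zero =>
    intro W D w hW _ _ _ hw
    rw [Nat.le_zero, Finset.card_eq_zero] at hW
    subst hW
    simp at hw
  | succ n ih =>
    intro W D w hW hD hDW hcl hw hwD hwn
    let good : V → Prop := fun x => x ∈ W ∧ x ∉ D ∧ ∀ d ∈ D, ¬ H.Adj x d
    let C : Finset V := W.filter fun c => ∃ p : H.Walk w c, ∀ x ∈ p.support, good x
    have hCgood : ∀ c ∈ C, good c := by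
      intro c hc
      obtain ⟨_, p, hp⟩ := Finset.mem_filter.1 hc
      exact hp c p.end_mem_support
    have hwC : w ∈ C := Finset.mem_filter.2 ⟨hw, Walk.nil, by
      intro x hx
      simp only [Walk.support_nil, List.mem_singleton] at hx
      subst hx
      exact ⟨hw, hwD, hwn⟩⟩
    have hext : ∀ c ∈ C, ∀ y, good y → H.Adj c y → y ∈ C := by
      intro c hc y hy hcy
      obtain ⟨_, p, hp⟩ := Finset.mem_filter.1 hc
      refine Finset.mem_filter.2 ⟨hy.1, p.concat hcy, ?_⟩
      intro x hx
      simp only [Walk.support_concat, List.mem_append, List.mem_singleton] at hx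
      rcases hx with hx | rfl
      · exact hp x hx
      · exact hy
    let N : Finset V := W.filter fun y => y ∉ C ∧ ∃ c ∈ C, H.Adj c y
    have hND : ∀ y ∈ N, y ∉ D ∧ ∃ d ∈ D, H.Adj y d := by
      intro y hy
      obtain ⟨hyW, hyC, c, hc, hcy⟩ := Finset.mem_filter.1 hy
      have hyD : y ∉ D := fun h => (hCgood c hc).2.2 y h hcy
      refine ⟨hyD, ?_⟩
      by_contra hcon
      push Not at hcon
      exact hyC (hext c hc y ⟨hyW, hyD, hcon⟩ hcy)
    have hNcl : ∀ a ∈ N, ∀ b ∈ N, a ≠ b → H.Adj a b := by
      intro a ha b hb hab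
      by_contra hna
      obtain ⟨_, _, c1, hc1, h1⟩ := Finset.mem_filter.1 ha
      obtain ⟨_, _, c2, hc2, h2⟩ := Finset.mem_filter.1 hb
      obtain ⟨_, p1, hp1⟩ := Finset.mem_filter.1 hc1
      obtain ⟨_, p2, hp2⟩ := Finset.mem_filter.1 hc2
      obtain ⟨_, d1, hd1, e1⟩ := hND a ha
      obtain ⟨_, d2, hd2, e2⟩ := hND b hb
      have hq : ∃ q : H.Walk b a, ∀ y ∈ q.support, y ≠ a → y ≠ b → y ∈ D := by
        by_cases hd : d2 = d1
        · subst hd
          refine ⟨Walk.cons e2 (Walk.cons e1.symm Walk.nil), ?_⟩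
          intro y hy ha' hb'
          simp only [Walk.support_cons, Walk.support_nil, List.mem_cons, List.not_mem_nil,
            or_false] at hy
          rcases hy with rfl | rfl | rfl
          · exact absurd rfl hb'
          · exact hd2
          · exact absurd rfl ha'
        · refine ⟨Walk.cons e2 (Walk.cons (hcl d2 hd2 d1 hd1 hd) (Walk.cons e1.symm Walk.nil)), ?_⟩
          intro y hy ha' hb'
          simp only [Walk.support_cons, Walk.support_nil, List.mem_cons, List.not_mem_nil,
            or_false] at hy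
          rcases hy with rfl | rfl | rfl | rfl
          · exact absurd rfl hb'
          · exact hd2
          · exact hd1
          · exact absurd rfl ha'
      obtain ⟨q, hq⟩ := hq
      refine no_two_paths hH hab hna
        (Walk.cons h1.symm (p1.reverse.append (p2.concat h2))) q ?_
      intro x hx y hy xa xb ya yb
      have hyD := hq y hy ya yb
      have hxg : good x := by
        simp only [Walk.support_cons, List.mem_cons, Walk.mem_support_append_iff,
          Walk.support_reverse, List.mem_reverse, Walk.support_concat, List.mem_append,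
          List.not_mem_nil, or_false] at hx
        rcases hx with rfl | hx | hx | rfl
        · exact absurd rfl xa
        · exact hp1 x hx
        · exact hp2 x hx
        · exact absurd rfl xb
      exact ⟨fun h => hxg.2.1 (h ▸ hyD), hxg.2.2 y hyD⟩
    have hsub : C ∪ N ⊆ W := Finset.union_subset (Finset.filter_subset _ _) (Finset.filter_subset _ _)
    have hcard : (C ∪ N).card ≤ n := by
      obtain ⟨d, hd⟩ := hD
      have : C ∪ N ⊂ W := by
        refine ⟨hsub, fun h => ?_⟩
        rcases Finset.mem_union.1 (h (hDW hd)) with h | h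
        · exact (hCgood d h).2.1 hd
        · exact (hND d h).1 hd
      have := Finset.card_lt_card this
      omega
    have fin : ∀ x ∈ C, (∀ y ∈ C ∪ N, ∀ z ∈ C ∪ N, H.Adj x y → H.Adj x z → y ≠ z → H.Adj y z) →
        ∃ x ∈ W, x ∉ D ∧ (∀ d ∈ D, ¬ H.Adj x d) ∧
          ∀ y ∈ W, ∀ z ∈ W, H.Adj x y → H.Adj x z → y ≠ z → H.Adj y z := by
      intro x hx hs
      have hg := hCgood x hx
      have hin : ∀ y ∈ W, H.Adj x y → y ∈ C ∪ N := by
        intro y hy hxy
        by_cases hyC : y ∈ C
        · exact Finset.mem_union_left _ hyC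
        · exact Finset.mem_union_right _ (Finset.mem_filter.2 ⟨hy, hyC, x, hx, hxy⟩)
      exact ⟨x, hg.1, hg.2.1, hg.2.2, fun y hy z hz h1 h2 h3 =>
        hs y (hin y hy h1) z (hin z hz h2) h1 h2 h3⟩
    by_cases hall : ∀ y ∈ C ∪ N, ∀ z ∈ C ∪ N, y ≠ z → H.Adj y z
    · exact fin w hwC fun y hy z hz _ _ h => hall y hy z hz h
    · push Not at hall
      obtain ⟨u, hu, v, hv, huv, hn⟩ := hall
      obtain ⟨x1, hx1, n1, a1, s1⟩ := ih (C ∪ N) {u} v hcard (by simp) (by simpa using hu)
        (by simp) hv (by simpa using huv.symm) (by simpa using fun h => hn h.symm)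
      have n1' : x1 ≠ u := by simpa using n1
      have a1' : ¬ H.Adj x1 u := by simpa using a1
      obtain ⟨x2, hx2, n2, a2, s2⟩ := ih (C ∪ N) {x1} u hcard (by simp) (by simpa using hx1)
        (by simp) hu (by simpa using n1'.symm) (by simpa using fun h => a1' h.symm)
      have n2' : x2 ≠ x1 := by simpa using n2
      have a2' : ¬ H.Adj x2 x1 := by simpa using a2
      rcases Finset.mem_union.1 hx1 with h1 | h1
      · exact fin x1 h1 s1
      · rcases Finset.mem_union.1 hx2 with h2 | h2
        · exact fin x2 h2 s2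
        · exact absurd (hNcl x2 h2 x1 h1 n2') a2'

/-- Dirac's lemma: outside the closed neighbourhood of a clique there is a simplicial vertex. -/
theorem dirac [Fintype V] (hH : Chordal H) (D : Finset V) (w : V) (hD : D.Nonempty)
    (hcl : ∀ a ∈ D, ∀ b ∈ D, a ≠ b → H.Adj a b) (hw : w ∉ D) (hwn : ∀ d ∈ D, ¬ H.Adj w d) :
    ∃ x, x ∉ D ∧ (∀ d ∈ D, ¬ H.Adj x d) ∧
      ∀ y z, H.Adj x y → H.Adj x z → y ≠ z → H.Adj y z := by
  obtain ⟨x, _, h1, h2, h3⟩ := dirac_aux hH _ Finset.univ D w le_rfl hD (Finset.subset_univ _) hcl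
    (Finset.mem_univ _) hw hwn
  exact ⟨x, h1, h2, fun y z => h3 y (Finset.mem_univ _) z (Finset.mem_univ _)⟩

end Pool.Agent.Lib.MP_f8058f_co
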