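import Pool.Agent.Lib.MP_f8058f_co.Dirac

set_option autoImplicit false

namespace Pool.Agent.Lib.MP_f8058f_co

open SimpleGraph Finset

variable {V : Type} [Fintype V] [DecidableEq V] {H : SimpleGraph V} [DecidableRel H.Adj]

/-- `x` is a simplicial vertex of `H`. -/
def Simp (H : SimpleGraph V) (x : V) : Prop := ∀ y z, H.Adj x y → H.Adj x z → y ≠ z → H.Adj y z

/-- The numerical consequences of toughness and minimal toughness of the complement of `H`. -/
structure Hyp (H : SimpleGraph V) [DecidableRel H.Adj] (t : ℝ) : Prop where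
  half : 1 / 2 < t
  tough : ∀ J Y : Finset V, J.Nonempty → Y.Nonempty → (∀ a ∈ J, ∀ b ∈ J, a ≠ b → H.Adj a b) →
    (∀ a ∈ J, ∀ b ∈ Y, H.Adj a b) → t * (J.card + 1) + J.card + Y.card ≤ Fintype.card V
  witness : ∀ x y, x ≠ y → ¬ H.Adj x y → ∃ A B : Finset V,
    A ⊆ H.neighborFinset y \ H.neighborFinset x ∧ B ⊆ H.neighborFinset x \ H.neighborFinset y ∧
    (∀ a ∈ A, ∀ b ∈ B, H.Adj a b) ∧
    (Fintype.card V : ℝ) < 2 + A.card + B.card + (H.neighborFinset x ∩ H.neighborFinset y).card +
      t * ((H.neighborFinset x ∩ H.neighborFinset y).card + 2)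
  common : ∀ x y, x ≠ y → ¬ H.Adj x y → ∃ z, H.Adj x z ∧ H.Adj y z
  nbr : ∀ x, ∃ y, H.Adj x y
  dirac : ∀ (D : Finset V) (w : V), D.Nonempty → (∀ a ∈ D, ∀ b ∈ D, a ≠ b → H.Adj a b) →
    w ∉ D → (∀ d ∈ D, ¬ H.Adj w d) → ∃ x, x ∉ D ∧ (∀ d ∈ D, ¬ H.Adj x d) ∧ Simp H x

variable {t : ℝ}

theorem Hyp.clique (h : Hyp H t) (K : Finset V) (hK : ∀ a ∈ K, ∀ b ∈ K, a ≠ b → H.Adj a b)
    (h2 : 2 ≤ K.card) : t * K.card + K.card ≤ Fintype.card V := by
  obtain ⟨y, hy⟩ : K.Nonempty := card_pos.1 (by omega)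
  have hc : (K.erase y).card + 1 = K.card := card_erase_add_one hy
  have := h.tough (K.erase y) {y} (card_pos.1 (by omega)) (by simp)
    (fun a ha b hb => hK a (mem_of_mem_erase ha) b (mem_of_mem_erase hb))
    (fun a ha b hb => by
      rw [mem_singleton] at hb
      subst hb
      exact hK a (mem_of_mem_erase ha) b hy (ne_of_mem_erase ha))
  have hc' : ((K.erase y).card : ℝ) + 1 = K.card := by exact_mod_cast hc
  rw [card_singleton, hc'] at this
  push_cast at this
  linarith

/-- One-sided inequalities for a pair of nonadjacent simplicial vertices. -/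
theorem Hyp.side (h : Hyp H t) {x y : V} (hx : Simp H x) (hy : Simp H y) (hne : x ≠ y)
    (hna : ¬ H.Adj x y) (A B : Finset V) (hA : A ⊆ H.neighborFinset y \ H.neighborFinset x)
    (hB : B ⊆ H.neighborFinset x \ H.neighborFinset y) (hAB : ∀ a ∈ A, ∀ b ∈ B, H.Adj a b) :
    t * ((H.neighborFinset x ∩ H.neighborFinset y).card + A.card + 1) +
      (H.neighborFinset x ∩ H.neighborFinset y).card + B.card +
      (H.neighborFinset y \ H.neighborFinset x).card + 1 ≤ Fintype.card V ∧
    t * ((H.neighborFinset x ∩ H.neighborFinset y).card +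
      (H.neighborFinset y \ H.neighborFinset x).card + 1) +
      ((H.neighborFinset x ∩ H.neighborFinset y).card +
      (H.neighborFinset y \ H.neighborFinset x).card + 1) ≤ Fintype.card V := by
  obtain ⟨z, hxz, hyz⟩ := h.common x y hne hna
  set I := H.neighborFinset x ∩ H.neighborFinset y with hI
  set P := H.neighborFinset y \ H.neighborFinset x with hP
  have mI : ∀ a, a ∈ I ↔ H.Adj x a ∧ H.Adj y a := by intro a; simp [hI]
  have mP : ∀ a, a ∈ P ↔ H.Adj y a ∧ ¬ H.Adj x a := by intro a; simp [hP]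
  have mB : ∀ a ∈ B, H.Adj x a ∧ ¬ H.Adj y a := by intro a ha; simpa using hB ha
  have hzI : z ∈ I := (mI z).2 ⟨hxz, hyz⟩
  constructor
  · have d1 : Disjoint I A := by
      rw [Finset.disjoint_left]; intro a ha ha'
      exact ((mP a).1 (hA ha')).2 ((mI a).1 ha).1
    have d2 : Disjoint B (P \ A) := by
      rw [Finset.disjoint_left]; intro a ha ha'
      exact (mB a ha).2 ((mP a).1 (mem_sdiff.1 ha').1).1
    have d3 : y ∉ B ∪ (P \ A) := by
      rw [mem_union, not_or]
      exact ⟨fun hb => hna (mB y hb).1,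
        fun hb => H.loopless.irrefl _ ((mP y).1 (mem_sdiff.1 hb).1).1⟩
    have hJ : ∀ a ∈ I ∪ A, H.Adj y a := by
      intro a ha
      rcases mem_union.1 ha with ha | ha
      · exact ((mI a).1 ha).2
      · exact ((mP a).1 (hA ha)).1
    have := h.tough (I ∪ A) (insert y (B ∪ (P \ A))) ⟨z, mem_union_left _ hzI⟩
      (insert_nonempty _ _) (fun a ha b hb hab => hy a b (hJ a ha) (hJ b hb) hab) (by
        intro a ha b hb
        rcases mem_insert.1 hb with rfl | hb
        · exact (hJ a ha).symm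
        rcases mem_union.1 hb with hb | hb
        · rcases mem_union.1 ha with ha | ha
          · refine hx a b ((mI a).1 ha).1 (mB b hb).1 ?_
            rintro rfl
            exact (mB a hb).2 ((mI a).1 ha).2
          · exact hAB a ha b hb
        · obtain ⟨hb1, hb2⟩ := mem_sdiff.1 hb
          refine hy a b (hJ a ha) ((mP b).1 hb1).1 ?_
          rintro rfl
          rcases mem_union.1 ha with ha | ha
          · exact ((mP a).1 hb1).2 ((mI a).1 ha).1
          · exact hb2 ha)
    rw [card_insert_of_notMem d3, card_union_of_disjoint d1, card_union_of_disjoint d2] at this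
    have e : (P \ A).card + A.card = P.card := card_sdiff_add_card_eq_card hA
    have e' : ((P \ A).card : ℝ) + A.card = P.card := by exact_mod_cast e
    push_cast at this
    linarith
  · have e : (insert y (H.neighborFinset y)).card = I.card + P.card + 1 := by
      rw [card_insert_of_notMem (by simp), hI, hP, inter_comm, add_comm (card (_ ∩ _)),
        card_sdiff_add_card_inter]
    have i1 : 1 ≤ I.card := card_pos.2 ⟨z, hzI⟩
    have := h.clique (insert y (H.neighborFinset y)) (by
      intro a ha b hb hab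
      rcases mem_insert.1 ha with rfl | ha
      · rcases mem_insert.1 hb with rfl | hb
        · exact absurd rfl hab
        · simpa using hb
      · rcases mem_insert.1 hb with rfl | hb
        · exact (by simpa using ha : H.Adj b a).symm
        · exact hy a b (by simpa using ha) (by simpa using hb) hab) (by omega)
    rw [e] at this
    push_cast at this
    exact this

theorem Hyp.both (h : Hyp H t) {x y : V} (hx : Simp H x) (hy : Simp H y) (hne : x ≠ y)
    (hna : ¬ H.Adj x y) :
    t * ((H.neighborFinset x ∩ H.neighborFinset y).card + 1) +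
      (H.neighborFinset x ∩ H.neighborFinset y).card +
      (H.neighborFinset x \ H.neighborFinset y).card +
      (H.neighborFinset y \ H.neighborFinset x).card + 2 ≤ Fintype.card V := by
  obtain ⟨z, hxz, hyz⟩ := h.common x y hne hna
  set I := H.neighborFinset x ∩ H.neighborFinset y with hI
  set P := H.neighborFinset y \ H.neighborFinset x with hP
  set Q := H.neighborFinset x \ H.neighborFinset y with hQ
  have mI : ∀ a, a ∈ I ↔ H.Adj x a ∧ H.Adj y a := by intro a; simp [hI]
  have mP : ∀ a, a ∈ P ↔ H.Adj y a ∧ ¬ H.Adj x a := by intro a; simp [hP]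
  have mQ : ∀ a, a ∈ Q ↔ H.Adj x a ∧ ¬ H.Adj y a := by intro a; simp [hQ]
  have d2 : Disjoint Q P := by
    rw [Finset.disjoint_left]; intro a ha ha'
    exact ((mQ a).1 ha).2 ((mP a).1 ha').1
  have d3 : y ∉ Q ∪ P := by
    rw [mem_union, not_or]
    exact ⟨fun hb => hna ((mQ y).1 hb).1, fun hb => H.loopless.irrefl _ ((mP y).1 hb).1⟩
  have d4 : x ∉ insert y (Q ∪ P) := by
    rw [mem_insert, mem_union, not_or, not_or]
    exact ⟨hne, fun hb => H.loopless.irrefl _ ((mQ x).1 hb).1, fun hb => hna ((mP x).1 hb).1.symm⟩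
  have := h.tough I (insert x (insert y (Q ∪ P))) ⟨z, (mI z).2 ⟨hxz, hyz⟩⟩ (insert_nonempty _ _)
    (fun a ha b hb hab => hy a b ((mI a).1 ha).2 ((mI b).1 hb).2 hab) (by
      intro a ha b hb
      rcases mem_insert.1 hb with rfl | hb
      · exact ((mI a).1 ha).1.symm
      rcases mem_insert.1 hb with rfl | hb
      · exact ((mI a).1 ha).2.symm
      rcases mem_union.1 hb with hb | hb
      · refine hx a b ((mI a).1 ha).1 ((mQ b).1 hb).1 ?_
        rintro rfl
        exact ((mQ a).1 hb).2 ((mI a).1 ha).2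
      · refine hy a b ((mI a).1 ha).2 ((mP b).1 hb).1 ?_
        rintro rfl
        exact ((mP a).1 hb).2 ((mI a).1 ha).1)
  rw [card_insert_of_notMem d4, card_insert_of_notMem d3, card_union_of_disjoint d2] at this
  push_cast at this
  linarith

theorem arith_le_two {t : ℝ} (ht : 1 / 2 < t) {a b d : ℕ} (had : a ≤ d)
    (h1 : t * (a - 1) + (d - a) < 1) (h0 : (d : ℝ) - a < t) (h2 : t * (d - 1) + d < a + b + 1)
    (hb : t * (b - 1) < 1) : d ≤ 2 ∧ (1 < t → d ≤ 1) := by
  have had' : (a : ℝ) ≤ d := by exact_mod_cast had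
  have hb2 : b ≤ 2 := by
    by_contra hc
    have : (3 : ℝ) ≤ b := by exact_mod_cast (by omega : 3 ≤ b)
    nlinarith
  have hb2' : (b : ℝ) ≤ 2 := by exact_mod_cast hb2
  rcases Nat.eq_zero_or_pos a with rfl | ha
  · simp only [Nat.cast_zero] at h1 h0 h2
    constructor
    · by_contra hc
      have : (3 : ℝ) ≤ d := by exact_mod_cast (by omega : 3 ≤ d)
      nlinarith
    · intro h1t
      have hb1 : b ≤ 1 := by
        by_contra hc
        have : (2 : ℝ) ≤ b := by exact_mod_cast (by omega : 2 ≤ b)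
        nlinarith
      have hb1' : (b : ℝ) ≤ 1 := by exact_mod_cast hb1
      by_contra hc
      have : (2 : ℝ) ≤ d := by exact_mod_cast (by omega : 2 ≤ d)
      nlinarith
  · have ha' : (1 : ℝ) ≤ a := by exact_mod_cast ha
    have hda : d = a := by
      by_contra hc
      have : (a : ℝ) + 1 ≤ d := by exact_mod_cast (by omega : a + 1 ≤ d)
      nlinarith
    subst hda
    constructor
    · by_contra hc
      have : (3 : ℝ) ≤ d := by exact_mod_cast (by omega : 3 ≤ d)
      nlinarith
    · intro h1t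
      by_contra hc
      have : (2 : ℝ) ≤ d := by exact_mod_cast (by omega : 2 ≤ d)
      nlinarith

theorem Hyp.pair (h : Hyp H t) {x y : V} (hx : Simp H x) (hy : Simp H y) (hne : x ≠ y)
    (hna : ¬ H.Adj x y) :
    (Fintype.card V : ℝ) < 2 + (H.neighborFinset y \ H.neighborFinset x).card +
      (H.neighborFinset x \ H.neighborFinset y).card +
      (H.neighborFinset x ∩ H.neighborFinset y).card +
      t * ((H.neighborFinset x ∩ H.neighborFinset y).card + 2) ∧
    (H.neighborFinset y \ H.neighborFinset x).card ≤ 2 ∧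
    (1 < t → (H.neighborFinset y \ H.neighborFinset x).card ≤ 1) ∧
    (t ≤ 1 → ∀ p ∈ H.neighborFinset x \ H.neighborFinset y,
      ∀ q ∈ H.neighborFinset y \ H.neighborFinset x, H.Adj p q) := by
  obtain ⟨A, B, hA, hB, hAB, hlt⟩ := h.witness x y hne hna
  obtain ⟨s1, s2⟩ := h.side hx hy hne hna A B hA hB hAB
  obtain ⟨s3, -⟩ := h.side hy hx hne.symm (fun h => hna h.symm) B A hB hA
    (fun b hb a ha => (hAB a ha b hb).symm)
  have s0 := h.both hx hy hne hna
  rw [inter_comm] at s3
  have cA := card_le_card hA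
  have cB := card_le_card hB
  have cA' : (A.card : ℝ) ≤ (H.neighborFinset y \ H.neighborFinset x).card := by exact_mod_cast cA
  have cB' : (B.card : ℝ) ≤ (H.neighborFinset x \ H.neighborFinset y).card := by exact_mod_cast cB
  have := arith_le_two h.half (a := A.card) (b := B.card) cA (by linarith) (by linarith)
    (by linarith) (by linarith)
  refine ⟨by linarith, this.1, this.2, ?_⟩
  intro ht p hp q hq
  have eA : A = H.neighborFinset y \ H.neighborFinset x := by
    refine eq_of_subset_of_card_le hA ?_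
    have : ((H.neighborFinset y \ H.neighborFinset x).card : ℝ) < A.card + 1 := by linarith
    have : (H.neighborFinset y \ H.neighborFinset x).card < A.card + 1 := by exact_mod_cast this
    omega
  have eB : B = H.neighborFinset x \ H.neighborFinset y := by
    refine eq_of_subset_of_card_le hB ?_
    have : ((H.neighborFinset x \ H.neighborFinset y).card : ℝ) < B.card + 1 := by linarith
    have : (H.neighborFinset x \ H.neighborFinset y).card < B.card + 1 := by exact_mod_cast this
    omega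
  exact (hAB q (eA ▸ hq) p (eB ▸ hp)).symm

/-- Every vertex has at least `2t` non-neighbours. -/
theorem Hyp.deg (h : Hyp H t) (u : V) :
    2 * t ≤ (univ.filter fun w => w ≠ u ∧ ¬ H.Adj u w).card := by
  obtain ⟨v, hv⟩ := h.nbr u
  have := h.tough {u} (H.neighborFinset u) (by simp) ⟨v, by simpa using hv⟩ (by simp) (by simp)
  have e : (univ.filter fun w => w ≠ u ∧ ¬ H.Adj u w) = univ \ insert u (H.neighborFinset u) := by
    ext w; simp
  have e2 : (univ \ insert u (H.neighborFinset u)).card + (insert u (H.neighborFinset u)).card =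
      Fintype.card V := card_sdiff_add_card_eq_card (subset_univ _)
  rw [card_insert_of_notMem (by simp)] at e2
  have e3 : ((univ \ insert u (H.neighborFinset u)).card : ℝ) +
      ((H.neighborFinset u).card + 1) = Fintype.card V := by exact_mod_cast e2
  rw [e]
  rw [card_singleton] at this
  push_cast at this
  linarith

theorem Hyp.simp_nonadj (h : Hyp H t) (u : V) : ∃ x, x ≠ u ∧ ¬ H.Adj x u ∧ Simp H x := by
  have h1 := h.deg u
  have h2 := h.half
  have : 0 < (univ.filter fun w => w ≠ u ∧ ¬ H.Adj u w).card := by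
    have : (0 : ℝ) < (univ.filter fun w => w ≠ u ∧ ¬ H.Adj u w).card := by linarith
    exact_mod_cast this
  obtain ⟨w, hw⟩ := card_pos.1 this
  simp only [mem_filter, mem_univ, true_and] at hw
  obtain ⟨x, h1, h2, h3⟩ := h.dirac {u} w (by simp) (by simp) (by simpa using hw.1)
    (by simpa using fun h => hw.2 h.symm)
  exact ⟨x, by simpa using h1, by simpa using h2, h3⟩

theorem Hyp.union_clique (h : Hyp H t) {x y p q : V} (hx : Simp H x) (hy : Simp H y)
    (hp : H.Adj x p) (hq : H.Adj y q) (hpq : p ≠ q) : H.Adj p q := by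
  by_cases hyp : H.Adj y p
  · exact hy p q hyp hq hpq
  by_cases hxq : H.Adj x q
  · exact hx p q hp hxq hpq
  have hne : x ≠ y := by rintro rfl; exact hyp hp
  by_cases hxy : H.Adj x y
  · by_cases hpy : y = p
    · exact hpy ▸ hq
    · exact absurd (hx y p hxy hp hpy) hyp
  by_cases ht : t ≤ 1
  · exact (h.pair hx hy hne hxy).2.2.2 ht p (by simp [hp, hyp]) q (by simp [hq, hxq])
  have ht' : 1 < t := not_le.1 ht
  obtain ⟨u, hxu, hyu⟩ := h.common x y hne hxy
  obtain ⟨z, hzu, hzu', hz⟩ := h.simp_nonadj u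
  have aux : ∀ x p, Simp H x → H.Adj x p → H.Adj x u → p ≠ u → H.Adj z p := by
    intro x p hx hp hxu hpu
    have n1 : z ≠ x := by rintro rfl; exact hzu' hxu
    have n2 : ¬ H.Adj z x := fun h => hzu' (hx z u h.symm hxu hzu)
    have c := (h.pair hz hx n1 n2).2.2.1 ht'
    by_contra hc
    exact hpu (card_le_one.1 c p (by simp [hp, hc]) u (by simp [hxu, hzu']))
  refine hz p q (aux x p hx hp hxu ?_) (aux y q hy hq hyu ?_) hpq
  · rintro rfl; exact hyp hyu
  · rintro rfl; exact hxq hxu

theorem Hyp.false [Nonempty V] (h : Hyp H t) : False := by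
  classical
  have ht := h.half
  let U : Finset V := univ.filter fun p => ∃ x, Simp H x ∧ H.Adj x p
  let F : Finset (Finset V) := univ.filter fun K => U ⊆ K ∧ ∀ a ∈ K, ∀ b ∈ K, a ≠ b → H.Adj a b
  have hUF : U ∈ F := by
    refine mem_filter.2 ⟨mem_univ _, Subset.rfl, ?_⟩
    intro a ha b hb hab
    obtain ⟨_, x, hx, hxa⟩ := mem_filter.1 ha
    obtain ⟨_, y, hy, hyb⟩ := mem_filter.1 hb
    exact h.union_clique hx hy hxa hyb hab
  obtain ⟨K, hKF, hmax⟩ := exists_max_image F card ⟨U, hUF⟩
  obtain ⟨_, hUK, hK⟩ := mem_filter.1 hKF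
  have hNK : ∀ x, Simp H x → H.neighborFinset x ⊆ K := by
    intro x hx p hp
    exact hUK (mem_filter.2 ⟨mem_univ _, x, hx, by simpa using hp⟩)
  have hD : ∀ w ∉ K, (K \ H.neighborFinset w).Nonempty := by
    intro w hw
    by_contra hc
    rw [not_nonempty_iff_eq_empty, sdiff_eq_empty_iff_subset] at hc
    have : insert w K ∈ F := by
      refine mem_filter.2 ⟨mem_univ _, hUK.trans (subset_insert _ _), ?_⟩
      intro a ha b hb hab
      rcases mem_insert.1 ha with ha' | ha'
      · rcases mem_insert.1 hb with hb' | hb'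
        · exact absurd (ha'.trans hb'.symm) hab
        · rw [ha']; simpa using hc hb'
      · rcases mem_insert.1 hb with hb' | hb'
        · rw [hb']; exact (by simpa using hc ha' : H.Adj w a).symm
        · exact hK a ha' b hb' hab
    have := hmax _ this
    rw [card_insert_of_notMem hw] at this
    omega
  have hS1 : ∀ u ∈ K, ∃ x, x ∉ K ∧ Simp H x ∧ ¬ H.Adj x u := by
    intro u hu
    obtain ⟨x, h1, h2, h3⟩ := h.simp_nonadj u
    exact ⟨x, fun hx => h2 (hK x hx u hu h1), h3, h2⟩
  have hS2 : ∀ w ∉ K, ∃ x, x ∉ K ∧ Simp H x ∧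
      K \ H.neighborFinset w ⊆ K \ H.neighborFinset x := by
    intro w hw
    obtain ⟨x, h1, h2, h3⟩ := h.dirac (K \ H.neighborFinset w) w (hD w hw)
      (fun a ha b hb => hK a (mem_sdiff.1 ha).1 b (mem_sdiff.1 hb).1)
      (fun h => hw (mem_sdiff.1 h).1) (fun d hd => by simpa using (mem_sdiff.1 hd).2)
    obtain ⟨u, hu⟩ := hD w hw
    refine ⟨x, fun hx => h2 u hu (hK x hx u (mem_sdiff.1 hu).1 ?_), h3, fun d hd => ?_⟩
    · rintro rfl; exact h1 hu
    · exact mem_sdiff.2 ⟨(mem_sdiff.1 hd).1, by simpa using h2 d hd⟩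
  -- numerical data of a pair of simplicial vertices outside `K`
  have hpair : ∀ x y, x ∉ K → y ∉ K → Simp H x → Simp H y → x ≠ y →
      ∃ i dx dy e : ℕ, 1 ≤ i ∧ K.card = i + dx + dy + e ∧
        (K \ H.neighborFinset x).card = dy + e ∧ (K \ H.neighborFinset y).card = dx + e ∧
        dx = (H.neighborFinset x \ H.neighborFinset y).card ∧
        (Fintype.card V : ℝ) < 2 + dy + dx + i + t * (i + 2) ∧ dy ≤ 2 ∧ (1 < t → dy ≤ 1) := by
    intro x y hx hy sx sy hne
    have hna : ¬ H.Adj x y := fun h => hy (hNK x sx (by simpa using h))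
    obtain ⟨p1, p2, p3, -⟩ := h.pair sx sy hne hna
    obtain ⟨z, hxz, hyz⟩ := h.common x y hne hna
    have c1 := card_sdiff_add_card_inter (H.neighborFinset x) (H.neighborFinset y)
    have c2 := card_sdiff_add_card_inter (H.neighborFinset y) (H.neighborFinset x)
    rw [inter_comm] at c2
    have c3 := card_union_add_card_inter (H.neighborFinset x) (H.neighborFinset y)
    have c4 := card_le_card (union_subset (hNK x sx) (hNK y sy))
    have c5 := card_sdiff_add_card_eq_card (hNK x sx)
    have c6 := card_sdiff_add_card_eq_card (hNK y sy)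
    refine ⟨(H.neighborFinset x ∩ H.neighborFinset y).card,
      (H.neighborFinset x \ H.neighborFinset y).card,
      (H.neighborFinset y \ H.neighborFinset x).card,
      K.card - (H.neighborFinset x ∪ H.neighborFinset y).card,
      card_pos.2 ⟨z, by simp [hxz, hyz]⟩, by omega, by omega, by omega, rfl, p1, p2, p3⟩
  have hother : ∀ x, x ∉ K → Simp H x → ∃ y, y ∉ K ∧ Simp H y ∧ x ≠ y ∧
      1 ≤ (H.neighborFinset x \ H.neighborFinset y).card := by
    intro x hx sx
    obtain ⟨u, hu⟩ := h.nbr x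
    obtain ⟨y, h1, h2, h3⟩ := hS1 u (hNK x sx (by simpa using hu))
    refine ⟨y, h1, h2, ?_, card_pos.2 ⟨u, by simp [hu, h3]⟩⟩
    rintro rfl; exact h3 hu
  obtain ⟨x0, hx0, sx0⟩ : ∃ x, x ∉ K ∧ Simp H x := by
    obtain ⟨v⟩ := ‹Nonempty V›
    by_cases hv : v ∈ K
    · obtain ⟨x, h1, h2, _⟩ := hS1 v hv; exact ⟨x, h1, h2⟩
    · obtain ⟨x, h1, h2, _⟩ := hS2 v hv; exact ⟨x, h1, h2⟩
  have hk2 : 2 ≤ K.card := by
    obtain ⟨y, h1, h2, h3, h4⟩ := hother x0 hx0 sx0
    obtain ⟨i, dx, dy, e, q1, q2, q3, q4, q5, -⟩ := hpair x0 y hx0 h1 sx0 h2 h3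
    omega
  have hT := h.clique K hK hk2
  have hD2 : ∀ x, x ∉ K → Simp H x → (K \ H.neighborFinset x).card ≤ 2 := by
    intro x hx sx
    obtain ⟨y, h1, h2, h3, h4⟩ := hother x hx sx
    obtain ⟨i, dx, dy, e, q1, q2, q3, q4, q5, q6, q7, -⟩ := hpair x y hx h1 sx h2 h3
    by_contra hc
    have r1 : (1 : ℝ) ≤ e := by exact_mod_cast (by omega : 1 ≤ e)
    have r2 : (4 : ℝ) ≤ dx + dy + e := by exact_mod_cast (by omega : 4 ≤ dx + dy + e)
    rw [q2] at hT
    push_cast at hT
    nlinarith
  -- double counting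
  have hcount : ∀ (K' : Finset V) (c : ℕ), K' ⊆ K →
      (∀ w ∉ K, (K' \ H.neighborFinset w).card ≤ c) →
      K'.card * ⌈2 * t⌉₊ ≤ (univ \ K).card * c := by
    intro K' c hK' hc
    refine card_mul_le_card_mul (fun u w => ¬ H.Adj u w) ?_ ?_
    · intro u hu
      refine (Nat.ceil_le.2 (h.deg u)).trans (card_le_card ?_)
      intro w hw
      simp only [mem_filter, mem_univ, true_and] at hw
      simp only [mem_bipartiteAbove, mem_sdiff, mem_univ, true_and]
      exact ⟨fun hwK => hw.2 (hK u (hK' hu) w hwK hw.1.symm), hw.2⟩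
    · intro w hw
      refine le_trans (card_le_card ?_) (hc w (mem_sdiff.1 hw).2)
      intro u hu
      simp only [mem_bipartiteBelow] at hu
      exact mem_sdiff.2 ⟨hu.1, by simpa using fun h => hu.2 h.symm⟩
  have hm1 : 2 * t ≤ (⌈2 * t⌉₊ : ℝ) := Nat.le_ceil _
  have hm2 : 2 ≤ ⌈2 * t⌉₊ := by
    have : (1 : ℝ) < (⌈2 * t⌉₊ : ℝ) := by linarith
    have : 1 < ⌈2 * t⌉₊ := by exact_mod_cast this
    omega
  have hw : (univ \ K).card + K.card = Fintype.card V := card_sdiff_add_card_eq_card (subset_univ _)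
  have hw' : ((univ \ K).card : ℝ) + K.card = Fintype.card V := by exact_mod_cast hw
  by_cases hA : ∀ x, x ∉ K → Simp H x → (K \ H.neighborFinset x).card ≤ 1
  · have c := hcount K 1 Subset.rfl (fun w hw => by
      obtain ⟨x, h1, h2, h3⟩ := hS2 w hw
      exact (card_le_card h3).trans (hA x h1 h2))
    obtain ⟨y, h1, h2, h3, h4⟩ := hother x0 hx0 sx0
    obtain ⟨i, dx, dy, e, q1, q2, q3, q4, q5, q6, -⟩ := hpair x0 y hx0 h1 sx0 h2 h3
    have a1 := card_pos.2 (hD x0 hx0)
    have c' : (K.card : ℝ) * (⌈2 * t⌉₊ : ℝ) ≤ (univ \ K).card := by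
      rw [mul_one] at c; exact_mod_cast c
    have hm2' : (2 : ℝ) ≤ (⌈2 * t⌉₊ : ℝ) := by exact_mod_cast hm2
    have r1 : (i : ℝ) + 2 ≤ K.card := by exact_mod_cast (by omega : i + 2 ≤ K.card)
    have r2 : (dy : ℝ) + dx + i ≤ K.card := by exact_mod_cast (by omega : dy + dx + i ≤ K.card)
    have r3 : (2 : ℝ) ≤ K.card := by exact_mod_cast hk2
    have r4 : (K.card : ℝ) * (t + 1) ≤ (K.card : ℝ) * (⌈2 * t⌉₊ : ℝ) :=
      mul_le_mul_of_nonneg_left (by linarith) (by linarith)
    have r5 : t * (i + 2) ≤ t * K.card := mul_le_mul_of_nonneg_left r1 (by linarith)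
    nlinarith
  · push Not at hA
    obtain ⟨x, hx, sx, hx2⟩ := hA
    have hx2' := hD2 x hx sx
    by_cases ht1 : 1 < t
    · obtain ⟨y, h1, h2, h3, h4⟩ := hother x hx sx
      obtain ⟨i, dx, dy, e, q1, q2, q3, q4, q5, q6, q7, q8⟩ := hpair x y hx h1 sx h2 h3
      have := q8 ht1
      have r1 : (1 : ℝ) ≤ e := by exact_mod_cast (by omega : 1 ≤ e)
      have r2 : (3 : ℝ) ≤ dx + dy + e := by exact_mod_cast (by omega : 3 ≤ dx + dy + e)
      rw [q2] at hT
      push_cast at hT
      nlinarith
    · have ht1' : t ≤ 1 := not_lt.1 ht1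
      have c2 := hcount K 2 Subset.rfl (fun w hw => by
        obtain ⟨x, h1, h2, h3⟩ := hS2 w hw
        exact (card_le_card h3).trans (hD2 x h1 h2))
      have c2' : K.card ≤ (univ \ K).card := by nlinarith
      have hnum : ∀ i dx dy : ℕ, (Fintype.card V : ℝ) < 2 + dy + dx + i + t * (i + 2) →
          Fintype.card V < 4 + dy + dx + 2 * i := by
        intro i dx dy hh
        have : t * ((i : ℝ) + 2) ≤ 1 * (i + 2) := mul_le_mul_of_nonneg_right ht1' (by positivity)
        have : (Fintype.card V : ℝ) < 4 + dy + dx + 2 * i := by linarith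
        exact_mod_cast this
      have hone : ∀ y, y ∉ K → Simp H y → x ≠ y → (K \ H.neighborFinset y).card ≤ 1 := by
        intro y h1 h2 h3
        obtain ⟨i, dx, dy, e, q1, q2, q3, q4, q5, q6, -⟩ := hpair x y hx h1 sx h2 h3
        have := hnum i dx dy q6
        omega
      obtain ⟨u, hu⟩ := hD x hx
      have c1 := hcount (K.erase u) 1 (erase_subset _ _) (fun w hw => by
        obtain ⟨y, h1, h2, h3⟩ := hS2 w hw
        by_cases hxy : x = y
        · subst hxy
          have : K.erase u \ H.neighborFinset w ⊆ (K \ H.neighborFinset x).erase u := by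
            intro a ha
            obtain ⟨a1, a2⟩ := mem_sdiff.1 ha
            exact mem_erase.2 ⟨ne_of_mem_erase a1, h3 (mem_sdiff.2 ⟨mem_of_mem_erase a1, a2⟩)⟩
          have c := card_le_card this
          rw [card_erase_of_mem hu] at c
          omega
        · refine le_trans (card_le_card ?_) (hone y h1 h2 hxy)
          exact (sdiff_subset_sdiff (erase_subset _ _) Subset.rfl).trans h3)
      rw [card_erase_of_mem (mem_sdiff.1 hu).1] at c1
      have c1' : (K.card - 1) * 2 ≤ (univ \ K).card := by nlinarith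
      obtain ⟨y, h1, h2, h3, h4⟩ := hother x hx sx
      obtain ⟨i, dx, dy, e, q1, q2, q3, q4, q5, q6, -⟩ := hpair x y hx h1 sx h2 h3
      have := hnum i dx dy q6
      have := hone y h1 h2 h3
      omega

end Pool.Agent.Lib.MP_f8058f_co
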