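import Mathlib

set_option autoImplicit false

namespace Pool.Agent.Lib.MP_f8058f_co

open scoped ENNReal

/-- `c(G - S)`: the number of connected components of `G - S`. -/
noncomputable def numComp {V : Type} (G : SimpleGraph V) (S : Finset V) : ℕ :=
  Nat.card (G.induce (↑S : Set V)ᶜ).ConnectedComponent

/-- Toughness: the infimum of `|S| / c(G - S)` over all `S` with `c(G - S) ≥ 2`
(so it is `∞` for complete graphs, and a minimum for all other finite graphs). -/
noncomputable def toughness {V : Type} (G : SimpleGraph V) : ℝ≥0∞ :=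
  ⨅ (S : Finset V) (_ : 2 ≤ numComp G S), (S.card : ℝ≥0∞) / (numComp G S : ℝ≥0∞)

/-- Deleting any edge lowers the toughness. -/
def MinimallyTough {V : Type} (G : SimpleGraph V) : Prop :=
  ∀ e ∈ G.edgeSet, toughness (G.deleteEdges {e}) < toughness G

/-- Every cycle of length at least four has a chord. -/
def Chordal {V : Type} (H : SimpleGraph V) : Prop :=
  ∀ (v : V) (c : H.Walk v v), c.IsCycle → 4 ≤ c.length → ∃ e : Sym2 V, c.IsChord e

end Pool.Agent.Lib.MP_f8058f_co
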