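import Pool.Agent.Lib.MP_f8058f_co.Core

set_option autoImplicit false
set_option linter.unusedSectionVars false

namespace Pool.Agent.Lib.MP_f8058f_co

open SimpleGraph Finset
open scoped ENNReal

section general

variable {V : Type} [Fintype V] [DecidableEq V]

theorem card_le_numComp {β : Type} (G : SimpleGraph V) (S T : Finset V) (f : V → β)
    (hf : ∀ u v, u ∉ S → v ∉ S → G.Adj u v → f u = f v) (hT : ∀ x ∈ T, x ∉ S)
    (hinj : ∀ x ∈ T, ∀ y ∈ T, f x = f y → x = y) : T.card ≤ numComp G S := by
  have hr : ∀ u v : ((↑S : Set V)ᶜ : Set V), (G.induce (↑S : Set V)ᶜ).Reachable u v →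
      f u = f v := by
    rintro u v ⟨p⟩
    induction p with
    | nil => rfl
    | @cons a b c h p ih => exact (hf a b a.2 b.2 h).trans ih
  let g : T → (G.induce (↑S : Set V)ᶜ).ConnectedComponent := fun x =>
    (G.induce (↑S : Set V)ᶜ).connectedComponentMk ⟨x.1, hT x.1 x.2⟩
  have hg : Function.Injective g := by
    intro x y hxy
    exact Subtype.ext (hinj _ x.2 _ y.2 (hr _ _ (ConnectedComponent.exact hxy)))
  have := Nat.card_le_card_of_injective g hg
  rwa [Nat.card_eq_fintype_card, Fintype.card_coe] at this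

theorem numComp_le_card (G : SimpleGraph V) (S T : Finset V)
    (h : ∀ v : ((↑S : Set V)ᶜ : Set V), ∃ x : ((↑S : Set V)ᶜ : Set V), x.1 ∈ T ∧
      (G.induce (↑S : Set V)ᶜ).Reachable v x) : numComp G S ≤ T.card := by
  classical
  let g : {x : ((↑S : Set V)ᶜ : Set V) // x.1 ∈ T} →
      (G.induce (↑S : Set V)ᶜ).ConnectedComponent := fun x =>
    (G.induce (↑S : Set V)ᶜ).connectedComponentMk x.1
  have hg : Function.Surjective g := by
    intro C
    induction C using ConnectedComponent.ind with
    | _ v =>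
      obtain ⟨x, hx, hr⟩ := h v
      exact ⟨⟨x, hx⟩, ConnectedComponent.sound hr.symm⟩
  have h1 := Nat.card_le_card_of_surjective g hg
  let k : {x : ((↑S : Set V)ᶜ : Set V) // x.1 ∈ T} → T := fun x => ⟨x.1.1, x.2⟩
  have hk : Function.Injective k := by
    intro x y hxy
    exact Subtype.ext (Subtype.ext (congrArg (fun z : T => (z : V)) hxy))
  have h2 := Nat.card_le_card_of_injective k hk
  rw [Nat.card_eq_fintype_card (α := T), Fintype.card_coe] at h2
  exact h1.trans h2

theorem numComp_le_of_reach (G G' : SimpleGraph V) (S : Finset V)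
    (h : ∀ u v : ((↑S : Set V)ᶜ : Set V), G.Adj u v → (G'.induce (↑S : Set V)ᶜ).Reachable u v) :
    numComp G' S ≤ numComp G S := by
  have hr : ∀ u v : ((↑S : Set V)ᶜ : Set V), (G.induce (↑S : Set V)ᶜ).Reachable u v →
      (G'.induce (↑S : Set V)ᶜ).Reachable u v := by
    rintro u v ⟨p⟩
    induction p with
    | nil => rfl
    | @cons a b c hab p ih => exact (h a b hab).trans ih
  let g : (G.induce (↑S : Set V)ᶜ).ConnectedComponent →
      (G'.induce (↑S : Set V)ᶜ).ConnectedComponent :=
    ConnectedComponent.lift (fun v => (G'.induce (↑S : Set V)ᶜ).connectedComponentMk v)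
      (fun v w p _ => ConnectedComponent.sound (hr v w ⟨p⟩))
  have hg : Function.Surjective g := by
    intro C
    induction C using ConnectedComponent.ind with
    | _ v => exact ⟨(G.induce (↑S : Set V)ᶜ).connectedComponentMk v, rfl⟩
  exact Nat.card_le_card_of_surjective g hg

omit [Fintype V] [DecidableEq V] in
theorem toughness_le (G : SimpleGraph V) (S : Finset V) (h : 2 ≤ numComp G S) :
    toughness G ≤ (S.card : ℝ≥0∞) / (numComp G S : ℝ≥0∞) :=
  iInf₂_le_of_le S h le_rfl

omit [Fintype V] [DecidableEq V] in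
theorem tough_real (G : SimpleGraph V) (S : Finset V) (h : 2 ≤ numComp G S) :
    (toughness G).toReal * numComp G S ≤ S.card := by
  have h0 : (numComp G S : ℝ≥0∞) ≠ 0 := by exact_mod_cast (by omega : numComp G S ≠ 0)
  have h1 := ENNReal.toReal_mono (ENNReal.div_ne_top (by simp) h0) (toughness_le G S h)
  rw [ENNReal.toReal_div] at h1
  simp only [ENNReal.toReal_natCast] at h1
  rwa [le_div_iff₀ (by exact_mod_cast (by omega : 0 < numComp G S))] at h1

omit [Fintype V] [DecidableEq V] in
theorem exists_of_toughness_lt (G : SimpleGraph V) {t : ℝ≥0∞} (ht : t ≠ ⊤)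
    (h : toughness G < t) :
    ∃ S : Finset V, 2 ≤ numComp G S ∧ (S.card : ℝ) < t.toReal * numComp G S := by
  rw [toughness, iInf_lt_iff] at h
  obtain ⟨S, h⟩ := h
  rw [iInf_lt_iff] at h
  obtain ⟨hS, h⟩ := h
  refine ⟨S, hS, ?_⟩
  have h1 := ENNReal.toReal_strict_mono ht h
  rw [ENNReal.toReal_div] at h1
  simp only [ENNReal.toReal_natCast] at h1
  rwa [div_lt_iff₀ (by exact_mod_cast (by omega : 0 < numComp G S))] at h1

theorem numComp_ge (G : SimpleGraph V) (J Y : Finset V) (hY : Y.Nonempty)
    (hJJ : ∀ a ∈ J, ∀ b ∈ J, a ≠ b → Gᶜ.Adj a b) (hJY : ∀ a ∈ J, ∀ b ∈ Y, Gᶜ.Adj a b) :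
    J.card + 1 ≤ numComp G (univ \ (J ∪ Y)) := by
  obtain ⟨y, hy⟩ := hY
  have hyJ : y ∉ J := fun h => (hJY y h y hy).ne rfl
  rw [← card_insert_of_notMem hyJ]
  have key : ∀ u v, u ∈ J → v ∈ J ∪ Y → ¬ G.Adj u v := by
    intro u v hu hv huv
    rcases mem_union.1 hv with hv | hv
    · exact (hJJ u hu v hv huv.ne).2 huv
    · exact (hJY u hu v hv).2 huv
  refine card_le_numComp G _ _ (fun v => if v ∈ J then some v else none) ?_ ?_ ?_
  · intro u v hu hv huv
    have hu' : u ∈ J ∪ Y := by simpa [-mem_union] using hu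
    have hv' : v ∈ J ∪ Y := by simpa [-mem_union] using hv
    rw [if_neg (fun h => key u v h hv' huv), if_neg (fun h => key v u h hu' huv.symm)]
  · intro x hx
    rcases mem_insert.1 hx with rfl | hx
    · simp [hy]
    · simp [hx]
  · intro a ha b hb hab
    rcases mem_insert.1 ha with rfl | ha' <;> rcases mem_insert.1 hb with rfl | hb'
    · rfl
    · simp [hyJ, hb'] at hab
    · simp [hyJ, ha'] at hab
    · simpa [ha', hb'] using hab

theorem toughness_le_half (G : SimpleGraph V) (hmin : MinimallyTough G) (hch : Chordal Gᶜ)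
    (hconn : Gᶜ.Connected) (hdiam : Gᶜ.diam = 2) : toughness G ≤ 1 / 2 := by
  classical
  by_contra hcon
  rw [not_le] at hcon
  have hnt : Nontrivial V := nontrivial_of_diam_ne_zero (G := Gᶜ) (by omega)
  have hed : Gᶜ.ediam ≠ ⊤ := ediam_ne_top_of_diam_ne_zero (by omega)
  have hnbr : ∀ x, ∃ y, Gᶜ.Adj x y := fun x => hconn.preconnected.exists_adj_of_nontrivial x
  have hfin : toughness G ≠ ⊤ := by
    obtain ⟨x⟩ := hconn.nonempty
    obtain ⟨y, hy⟩ := hnbr x
    have h2 := numComp_ge G {x} {y} (by simp) (by simp) (by simpa [-compl_adj] using hy)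
    rw [card_singleton] at h2
    refine ne_top_of_le_ne_top ?_ (toughness_le G _ h2)
    exact ENNReal.div_ne_top (by simp) (by exact_mod_cast (by omega : numComp G _ ≠ 0))
  set t := (toughness G).toReal with ht
  have hhalf : 1 / 2 < t := by
    have := ENNReal.toReal_strict_mono hfin hcon
    simpa using this
  refine Hyp.false (H := Gᶜ) (t := t) ⟨hhalf, ?_, ?_, ?_, hnbr, ?_⟩
  · intro J Y hJ hY hJJ hJY
    have h1 := numComp_ge G J Y hY hJJ hJY
    have h2 := tough_real G _ (le_trans (by have := card_pos.2 hJ; omega) h1)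
    have hd : Disjoint J Y := by
      rw [Finset.disjoint_left]
      intro a ha ha'
      exact (hJY a ha a ha').ne rfl
    have h3 : (univ \ (J ∪ Y)).card + (J ∪ Y).card = Fintype.card V :=
      card_sdiff_add_card_eq_card (subset_univ _)
    rw [card_union_of_disjoint hd] at h3
    have h3' : ((univ \ (J ∪ Y)).card : ℝ) + (J.card + Y.card) = Fintype.card V := by
      exact_mod_cast h3
    have h1' : (J.card : ℝ) + 1 ≤ numComp G (univ \ (J ∪ Y)) := by exact_mod_cast h1
    have h4 : t * (J.card + 1) ≤ t * numComp G (univ \ (J ∪ Y)) :=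
      mul_le_mul_of_nonneg_left h1' (by linarith)
    linarith
  · intro x y hne hna
    have hxy : G.Adj x y := by
      by_contra hc
      exact hna ⟨hne, hc⟩
    obtain ⟨S, hS2, hS⟩ := exists_of_toughness_lt _ hfin (hmin s(x, y) hxy)
    set G' := G.deleteEdges {s(x, y)} with hG'
    have adj' : ∀ u v, G.Adj u v → s(u, v) ≠ s(x, y) → G'.Adj u v := by
      intro u v h1 h2
      rw [hG', deleteEdges_adj]
      exact ⟨h1, by simpa using h2⟩
    have hsep : ∃ (hx : x ∉ S) (hy : y ∉ S),
        ¬ (G'.induce (↑S : Set V)ᶜ).Reachable ⟨x, hx⟩ ⟨y, hy⟩ := by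
      by_contra hc
      push Not at hc
      have hle : numComp G' S ≤ numComp G S := by
        refine numComp_le_of_reach G G' S ?_
        rintro ⟨u, hu⟩ ⟨v, hv⟩ huv
        by_cases he : s(u, v) = s(x, y)
        · rcases Sym2.eq_iff.1 he with ⟨rfl, rfl⟩ | ⟨rfl, rfl⟩
          · exact hc hu hv
          · exact (hc hv hu).symm
        · exact Adj.reachable (adj' u v huv he)
      have h2 := tough_real G S (hS2.trans hle)
      have hle' : (numComp G' S : ℝ) ≤ numComp G S := by exact_mod_cast hle
      have : t * numComp G' S ≤ t * numComp G S := mul_le_mul_of_nonneg_left hle' (by linarith)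
      linarith
    obtain ⟨hx, hy, hsep⟩ := hsep
    have rx : ∀ r (hr : r ∉ S), r ≠ y → G.Adj x r →
        (G'.induce (↑S : Set V)ᶜ).Reachable ⟨x, hx⟩ ⟨r, hr⟩ := by
      intro r hr hry h
      refine Adj.reachable (adj' x r h ?_)
      intro he
      rcases Sym2.eq_iff.1 he with ⟨_, h2⟩ | ⟨h1, _⟩
      · exact hry h2
      · exact hne h1
    have ry : ∀ r (hr : r ∉ S), r ≠ x → G.Adj y r →
        (G'.induce (↑S : Set V)ᶜ).Reachable ⟨y, hy⟩ ⟨r, hr⟩ := by
      intro r hr hrx h
      refine Adj.reachable (adj' y r h ?_)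
      intro he
      rcases Sym2.eq_iff.1 he with ⟨h1, _⟩ | ⟨_, h2⟩
      · exact hne h1.symm
      · exact hrx h2
    let A : Finset V := univ.filter fun r => r ∉ S ∧ r ≠ y ∧ G.Adj x r
    let B : Finset V := univ.filter fun r => r ∉ S ∧ r ≠ x ∧ G.Adj y r
    set I := Gᶜ.neighborFinset x ∩ Gᶜ.neighborFinset y with hI
    have hcases : ∀ r, r ∉ S → r = x ∨ r = y ∨ r ∈ A ∨ r ∈ B ∨ r ∈ I := by
      intro r hr
      by_cases h1 : r = x
      · exact Or.inl h1
      by_cases h2 : r = y
      · exact Or.inr (Or.inl h2)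
      by_cases h3 : G.Adj x r
      · exact Or.inr (Or.inr (Or.inl (mem_filter.2 ⟨mem_univ _, hr, h2, h3⟩)))
      by_cases h4 : G.Adj y r
      · exact Or.inr (Or.inr (Or.inr (Or.inl (mem_filter.2 ⟨mem_univ _, hr, h1, h4⟩))))
      refine Or.inr (Or.inr (Or.inr (Or.inr ?_)))
      rw [hI, mem_inter, mem_neighborFinset, mem_neighborFinset]
      exact ⟨⟨Ne.symm h1, h3⟩, ⟨Ne.symm h2, h4⟩⟩
    refine ⟨A, B, ?_, ?_, ?_, ?_⟩
    · intro r hr
      obtain ⟨_, h1, h2, h3⟩ := mem_filter.1 hr
      rw [mem_sdiff, mem_neighborFinset, mem_neighborFinset]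
      refine ⟨⟨h2.symm, fun h => hsep ((rx r h1 h2 h3).trans (ry r h1 h3.ne.symm h).symm)⟩,
        fun h => h.2 h3⟩
    · intro r hr
      obtain ⟨_, h1, h2, h3⟩ := mem_filter.1 hr
      rw [mem_sdiff, mem_neighborFinset, mem_neighborFinset]
      refine ⟨⟨h2.symm, fun h => hsep ((rx r h1 h3.ne.symm h).trans (ry r h1 h2 h3).symm)⟩,
        fun h => h.2 h3⟩
    · intro a ha b hb
      obtain ⟨_, a1, a2, a3⟩ := mem_filter.1 ha
      obtain ⟨_, b1, b2, b3⟩ := mem_filter.1 hb
      refine ⟨?_, fun h => ?_⟩
      · rintro rfl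
        exact hsep ((rx a a1 a2 a3).trans (ry a a1 b2 b3).symm)
      · have : (G'.induce (↑S : Set V)ᶜ).Reachable ⟨a, a1⟩ ⟨b, b1⟩ := by
          refine Adj.reachable (adj' a b h ?_)
          intro he
          rcases Sym2.eq_iff.1 he with ⟨h1, _⟩ | ⟨h1, _⟩
          · exact a3.ne h1.symm
          · exact a2 h1
        exact hsep (((rx a a1 a2 a3).trans this).trans (ry b b1 b2 b3).symm)
    · have c1 : numComp G' S ≤ (insert x (insert y I)).card := by
        refine numComp_le_card G' S _ ?_
        rintro ⟨r, hr⟩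
        rcases hcases r hr with h | h | h | h | h
        · exact ⟨⟨r, hr⟩, by simp [h], Reachable.rfl⟩
        · exact ⟨⟨r, hr⟩, by simp [h], Reachable.rfl⟩
        · obtain ⟨_, a1, a2, a3⟩ := mem_filter.1 h
          exact ⟨⟨x, hx⟩, by simp, (rx r a1 a2 a3).symm⟩
        · obtain ⟨_, a1, a2, a3⟩ := mem_filter.1 h
          exact ⟨⟨y, hy⟩, by simp, (ry r a1 a2 a3).symm⟩
        · exact ⟨⟨r, hr⟩, mem_insert_of_mem (mem_insert_of_mem h), Reachable.rfl⟩
      have c2 : (insert x (insert y I)).card ≤ I.card + 2 :=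
        (card_insert_le _ _).trans (Nat.succ_le_succ (card_insert_le _ _))
      have c3 : (numComp G' S : ℝ) ≤ I.card + 2 := by exact_mod_cast c1.trans c2
      have c4 : (univ : Finset V) ⊆ S ∪ (insert x (insert y I) ∪ (A ∪ B)) := by
        intro r _
        by_cases hr : r ∈ S
        · exact mem_union_left _ hr
        · refine mem_union_right _ ?_
          simp only [mem_union, mem_insert]
          rcases hcases r hr with h | h | h | h | h <;> simp [h]
      have c5 := card_le_card c4
      have c6 := card_union_le S (insert x (insert y I) ∪ (A ∪ B))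
      have c7 := card_union_le (insert x (insert y I)) (A ∪ B)
      have c8 := card_union_le A B
      rw [card_univ] at c5
      have c9 : Fintype.card V ≤ S.card + (I.card + 2) + (A.card + B.card) := by omega
      have c9' : (Fintype.card V : ℝ) ≤ S.card + (I.card + 2) + (A.card + B.card) := by
        exact_mod_cast c9
      have : t * numComp G' S ≤ t * (I.card + 2) := mul_le_mul_of_nonneg_left c3 (by linarith)
      linarith
  · intro x y hne hna
    obtain ⟨p, hp⟩ := hconn.exists_walk_length_eq_dist x y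
    have h1 := dist_le_diam hed (u := x) (v := y)
    have h2 := two_le_length hne hna p
    cases p with
    | nil => simp at h2
    | cons h p' =>
      cases p' with
      | nil => simp at h2
      | cons h' p'' =>
        cases p'' with
        | nil => exact ⟨_, h, h'.symm⟩
        | cons h'' p''' =>
          simp only [Walk.length_cons] at hp
          omega
  · intro D w h1 h2 h3 h4
    exact dirac hch D w h1 h2 h3 h4

omit [Fintype V] in
theorem chord_of_simp {H : SimpleGraph V} {x : V} (c : H.Walk x x) (hc : c.IsCycle)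
    (hl : 4 ≤ c.length) (hx : Simp H x) : ∃ e, c.IsChord e := by
  cases c with
  | nil => simp at hl
  | @cons _ a _ h p =>
    obtain ⟨hp, -⟩ := (Walk.cons_isCycle_iff _ _).1 hc
    obtain ⟨b, hb, q, hq⟩ := Walk.exists_eq_cons_of_ne h.ne p.reverse
    have hp' : (Walk.cons hb q).IsPath := hq ▸ hp.reverse
    obtain ⟨hq1, hq2⟩ := (Walk.cons_isPath_iff _ _).1 hp'
    have l1 : p.length = q.length + 1 := by
      rw [← p.length_reverse, hq]; rfl
    simp only [Walk.length_cons] at hl
    have hba : b ≠ a := by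
      rintro rfl
      have := Walk.length_eq_zero_iff.2 (Walk.isPath_iff_nil.1 hq1)
      omega
    have hs : ∀ z ∈ q.support, z ∈ p.support := by
      intro z hz
      have : z ∈ p.reverse.support := by rw [hq]; simp [hz]
      simpa using this
    have he : ∀ e, e ∈ p.edges → e = s(x, b) ∨ e ∈ q.edges := by
      intro e he
      have : e ∈ p.reverse.edges := by simpa using he
      rw [hq] at this
      simpa using this
    refine ⟨s(b, a), Walk.isChord_sym2Mk.2 ⟨hx b a hb h hba, ?_, ?_, ?_⟩⟩
    · intro hm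
      simp only [Walk.edges_cons, List.mem_cons] at hm
      rcases hm with hm | hm
      · rcases Sym2.eq_iff.1 hm with ⟨h1, _⟩ | ⟨h1, _⟩
        · exact hb.ne h1.symm
        · exact hba h1
      · rcases he _ hm with hm | hm
        · rcases Sym2.eq_iff.1 hm with ⟨h1, _⟩ | ⟨_, h1⟩
          · exact hb.ne h1.symm
          · exact h.ne h1.symm
        · have := hq1.length_eq_one_of_mem_edges hm
          omega
    · simp [hs b q.start_mem_support]
    · simp

omit [Fintype V] in
theorem chordal_of_simp {H : SimpleGraph V} (T : Finset V) (hT : T.card ≤ 3)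
    (h : ∀ x, x ∉ T → Simp H x) : Chordal H := by
  intro v c hc hl
  by_cases hx : ∃ x ∈ c.support, x ∉ T
  · obtain ⟨x, hx, hxT⟩ := hx
    obtain ⟨e, he⟩ := chord_of_simp (c.rotate x hx) (hc.rotate hx) (by simpa using hl) (h x hxT)
    induction e using Sym2.ind with
    | _ a b =>
      rw [Walk.isChord_sym2Mk, Walk.mem_support_rotate_iff, Walk.mem_support_rotate_iff,
        (Walk.rotate_edges c x hx).mem_iff] at he
      exact ⟨s(a, b), Walk.isChord_sym2Mk.2 he⟩
  · push Not at hx
    have h1 := List.toFinset_card_of_nodup hc.support_nodup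
    have h2 : c.support.tail.toFinset ⊆ T := fun z hz =>
      hx z (List.mem_of_mem_tail (List.mem_toFinset.1 hz))
    have h3 := card_le_card h2
    rw [h1, List.length_tail, Walk.length_support] at h3
    omega

end general

/-- The net: a triangle `0, 1, 2` with pendant vertices `3, 4, 5`. -/
def net : SimpleGraph (Fin 6) :=
  SimpleGraph.fromRel fun a b => (a.val < 3 ∧ b.val < 3) ∨ a.val + 3 = b.val

instance instDecNet : DecidableRel net.Adj := fun a b => by
  unfold net; rw [fromRel_adj]; infer_instance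

theorem net_chordal : Chordal netᶜ := by
  refine chordal_of_simp {3, 4, 5} (by decide) ?_
  unfold Simp
  simp only [compl_adj]
  decide

theorem net_common : ∀ u v : Fin 6, u = v ∨ netᶜ.Adj u v ∨ ∃ w, netᶜ.Adj u w ∧ netᶜ.Adj w v := by
  simp only [compl_adj]
  decide

theorem net_conn : netᶜ.Connected := by
  refine ⟨fun u v => ?_⟩
  rcases net_common u v with rfl | h | ⟨w, h1, h2⟩
  · rfl
  · exact h.reachable
  · exact h1.reachable.trans h2.reachable

theorem net_diam : netᶜ.diam = 2 := by
  have hed : netᶜ.ediam ≠ ⊤ := connected_iff_ediam_ne_top.1 net_conn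
  apply le_antisymm
  · obtain ⟨u, v, huv⟩ := exists_dist_eq_diam (G := netᶜ)
    rw [← huv]
    rcases net_common u v with rfl | h | ⟨w, h1, h2⟩
    · simp
    · exact (dist_le h.toWalk).trans (by simp)
    · exact (dist_le (Walk.cons h1 h2.toWalk)).trans (by simp)
  · refine le_trans ?_ (dist_le_diam hed (u := 0) (v := 1))
    obtain ⟨p, hp⟩ := net_conn.exists_walk_length_eq_dist 0 1
    rw [← hp]
    exact two_le_length (by decide) (by simp only [compl_adj]; decide) p

theorem net_reach (S T : Finset (Fin 6))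
    (h : ∀ v, v ∉ S → ∃ x ∈ T, x ∉ S ∧
      (v = x ∨ net.Adj v x ∨ ∃ w, w ∉ S ∧ net.Adj v w ∧ net.Adj w x)) :
    numComp net S ≤ T.card := by
  refine numComp_le_card net S T ?_
  rintro ⟨v, hv⟩
  obtain ⟨x, h1, h2, h3⟩ := h v hv
  refine ⟨⟨x, h2⟩, h1, ?_⟩
  rcases h3 with rfl | h3 | ⟨w, hw, h3, h4⟩
  · rfl
  · exact Adj.reachable h3
  · have r1 : (net.induce (↑S : Set (Fin 6))ᶜ).Reachable ⟨v, hv⟩ ⟨w, hw⟩ := Adj.reachable h3
    have r2 : (net.induce (↑S : Set (Fin 6))ᶜ).Reachable ⟨w, hw⟩ ⟨x, h2⟩ := Adj.reachable h4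
    exact r1.trans r2

theorem net_lower (S : Finset (Fin 6)) (h : 2 ≤ numComp net S) : numComp net S ≤ 2 * S.card := by
  by_cases h2 : 2 ≤ S.card
  · have := net_reach S (univ \ S) (fun v hv => ⟨v, by simp [hv], hv, Or.inl rfl⟩)
    have h3 : (univ \ S).card + S.card = Fintype.card (Fin 6) :=
      card_sdiff_add_card_eq_card (subset_univ _)
    rw [Fintype.card_fin] at h3
    omega
  · by_cases h1 : S.card = 1
    · obtain ⟨a, rfl⟩ := card_eq_one.1 h1
      rw [h1]
      fin_cases a
      · exact (net_reach _ {1, 3} (by decide)).trans (by decide)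
      · exact (net_reach _ {0, 4} (by decide)).trans (by decide)
      · exact (net_reach _ {0, 5} (by decide)).trans (by decide)
      · exact (net_reach _ {0} (by decide)).trans (by decide)
      · exact (net_reach _ {0} (by decide)).trans (by decide)
      · exact (net_reach _ {0} (by decide)).trans (by decide)
    · have h0 : S = ∅ := card_eq_zero.1 (by omega)
      subst h0
      have := net_reach ∅ {0} (by decide)
      rw [card_singleton] at this
      omega

theorem ratio_le {a b c : ℕ} (h : c ≤ b) : (a : ℝ≥0∞) / b ≤ (a : ℝ≥0∞) / c :=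
  ENNReal.div_le_div_left (by exact_mod_cast h) _

theorem net_tough : toughness net = 1 / 2 := by
  apply le_antisymm
  · have h : 2 ≤ numComp net {0} :=
      card_le_numComp net {0} {1, 3} (fun v => decide (v = 3)) (by decide) (by decide) (by decide)
    refine (toughness_le net _ h).trans ((ratio_le h).trans ?_)
    simp
  · refine le_iInf₂ fun S hS => ?_
    have h1 := net_lower S hS
    have h0 : (S.card : ℝ≥0∞) ≠ 0 := by exact_mod_cast (by omega : S.card ≠ 0)
    refine le_trans (le_of_eq ?_) (ratio_le h1)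
    push_cast
    rw [mul_comm]
    nth_rw 1 [← mul_one (S.card : ℝ≥0∞)]
    rw [ENNReal.mul_div_mul_left _ _ h0 (by simp)]

theorem net_min : MinimallyTough net := by
  have pend : ∀ a b : Fin 6, (∀ v, net.Adj b v → v = a) → a ≠ b →
      toughness (net.deleteEdges {s(a, b)}) < 1 / 2 := by
    intro a b h hab
    have h2 : ({a, b} : Finset (Fin 6)).card ≤ numComp (net.deleteEdges {s(a, b)}) ∅ := by
      refine card_le_numComp _ ∅ {a, b} (fun v => decide (v = b)) ?_ (by simp) ?_
      · intro u v _ _ huv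
        rw [deleteEdges_adj] at huv
        have hu : u ≠ b := by
          rintro rfl
          have := h v huv.1
          subst this
          exact huv.2 (by simp [Sym2.eq_swap])
        have hv : v ≠ b := by
          rintro rfl
          have := h u huv.1.symm
          subst this
          exact huv.2 (by simp)
        simp [hu, hv]
      · intro x hx y hy hxy
        simp only [mem_insert, mem_singleton] at hx hy
        rcases hx with rfl | rfl <;> rcases hy with rfl | rfl <;> simp_all
    rw [card_pair hab] at h2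
    refine lt_of_le_of_lt (toughness_le _ _ h2) ?_
    simp
  have tri : ∀ (a b c : Fin 6) (T : Finset (Fin 6)) (f : Fin 6 → Fin 3), T.card = 3 →
      (∀ u v, u ≠ c → v ≠ c → net.Adj u v → s(u, v) ≠ s(a, b) → f u = f v) → c ∉ T →
      (∀ x ∈ T, ∀ y ∈ T, f x = f y → x = y) →
      toughness (net.deleteEdges {s(a, b)}) < 1 / 2 := by
    intro a b c T f hT h1 h2 h3
    have h4 : T.card ≤ numComp (net.deleteEdges {s(a, b)}) {c} := by
      refine card_le_numComp _ {c} T f ?_ ?_ h3
      · intro u v hu hv huv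
        rw [deleteEdges_adj] at huv
        exact h1 u v (by simpa using hu) (by simpa using hv) huv.1 (by simpa using huv.2)
      · intro x hx hc
        rw [mem_singleton] at hc
        exact h2 (hc ▸ hx)
    rw [hT] at h4
    refine lt_of_le_of_lt ((toughness_le _ _ (by omega)).trans (ratio_le h4)) ?_
    simp only [card_singleton, Nat.cast_one, one_div, Nat.cast_ofNat]
    exact ENNReal.inv_lt_inv.2 (by norm_num)
  have hall : ∀ a b : Fin 6, net.Adj a b → s(a, b) = s(0, 3) ∨ s(a, b) = s(1, 4) ∨
      s(a, b) = s(2, 5) ∨ s(a, b) = s(0, 1) ∨ s(a, b) = s(0, 2) ∨ s(a, b) = s(1, 2) := by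
    decide
  intro e he
  rw [net_tough]
  induction e using Sym2.ind with
  | _ a b =>
    rcases hall a b he with h | h | h | h | h | h <;> rw [h]
    · exact pend 0 3 (by decide) (by decide)
    · exact pend 1 4 (by decide) (by decide)
    · exact pend 2 5 (by decide) (by decide)
    · exact tri 0 1 2 {3, 4, 5} ![0, 1, 2, 0, 1, 2] (by decide) (by decide) (by decide) (by decide)
    · exact tri 0 2 1 {3, 4, 5} ![0, 1, 2, 0, 1, 2] (by decide) (by decide) (by decide) (by decide)
    · exact tri 1 2 0 {3, 4, 5} ![0, 1, 2, 0, 1, 2] (by decide) (by decide) (by decide) (by decide)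

end Pool.Agent.Lib.MP_f8058f_co
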